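import Pool.Agent.H38.SE.Defs

/-!
# SQ (MP_b39724_nt): Malle's conjecture for `S_4` in degree 6 (on pairs) over EVERY number field. Definitions (complete)

Text: the master text (think, helper12). Everything of SX (H67/SX/Defs) stays; `K ⊂ QBar` is any number field. The local type of a cubic field now
includes the infinite places:

* `ni c v`: the number of the infinite places of `F` over the infinite place `v` of `K` (3 if `v` is complex; 3 or 2 if `v` is real, according to the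
  sign of the discriminant).
* `LEI S Q c c'`: the same local type at `S` (`LEq`) and `ni c v = ni c' v` for all `v`.
* `MStI`, `LFnI`, `LS5I`, `FFSI`: `MStat`, `LFin`, `LS5`, `FFS` with `LEI` in the place of `LEq`.
-/

set_option autoImplicit false

open scoped NumberField Classical
open IsDedekindDomain H38.ML H63.MA Filter Topology H67.SX

noncomputable section

namespace H12.SQ

variable {K : IntermediateField ℚ QBar} [NumberField K]

/-- the number of the infinite places of `F` over `v` -/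
def ni (c : Cu K) (v : NumberField.InfinitePlace K) : ℕ :=
  {w : NumberField.InfinitePlace c.F | w.comap (algebraMap K c.F) = v}.ncard

/-- the same local type at the primes of `S` and at the infinite places -/
def LEI (S : Finset (Pl K)) (Q : DP K QBar) (c c' : Cu K) : Prop :=
  LEq S Q c c' ∧ ∀ v, ni c v = ni c' v

/-- CHAPTER M -/
def MStI (K : IntermediateField ℚ QBar) [NumberField K] (S : Finset (Pl K)) (Q : DP K QBar) :
    Prop :=
  ∀ c₀ : Cu K, ∃ (κ : ℝ) (m : Pl K → ℝ) (C : ℝ) (A : ℕ) (δ : ℝ), 0 < κ ∧ 1 ≤ C ∧ 0 < δ ∧ δ ≤ 1 ∧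
    (∀ l, |m l| ≤ C / nm l) ∧ (∀ l, -1 ≤ m l) ∧
    ∀ q : Finset (Pl K), (∀ l ∈ q, l ∉ S) → ∀ R : ℝ, 1 ≤ R →
      |(∑ᶠ c ∈ {c : Cu K | LEI S Q c₀ c ∧ c.D ≤ R}, ∏ l ∈ q, c.mu l) - κ * R * ∏ l ∈ q, m l| ≤
        C * nr q ^ A * R ^ (1 - δ)

/-- finitely many local types -/
def LFnI (K : IntermediateField ℚ QBar) [NumberField K] (S : Finset (Pl K)) (Q : DP K QBar) :
    Prop := ∃ T : Finset (Cu K), ∀ c : Cu K, ∃ c₀ ∈ T, LEI S Q c₀ c

/-- CHAPTER LS: the mean of `Am` over the fields of one local type -/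
def LS5I (K : IntermediateField ℚ QBar) [NumberField K] (S : Finset (Pl K)) (Q : DP K QBar)
    (Am : Cu K → ℝ) : Prop :=
  ∀ c₀ : Cu K, ∃ a : ℝ, 0 < a ∧
    Tendsto (fun R : ℝ => (∑ᶠ c ∈ {c : Cu K | LEI S Q c₀ c ∧ c.D ≤ R}, Am c) / R) atTop (𝓝 a)

/-- CHAPTER FF: the fibre formula -/
def FFSI {G : Type} [Group G] (K : IntermediateField ℚ QBar) [NumberField K] (S : Finset (Pl K))
    (Q : DP K QBar) (pi : G →* Equiv.Perm (Fin 3)) : Prop :=
  ∀ ds : (Gal(QBar/K) →* G) → ℕ, H48.T3.LocInv Q S ds →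
    (∃ Df : Finset ℕ, ∀ φ : Gal(QBar/K) →* G, FT φ → Function.Surjective φ → ds φ ∈ Df) ∧
    ∃ (C : ℝ) (W : ℕ → Cu K → ℝ), 1 ≤ C ∧ (∀ d c, 0 ≤ W d c ∧ W d c ≤ C) ∧
      (∀ d c c', LEI S Q c c' → W d c = W d c') ∧ (∀ c, ∃ d, 0 < W d c) ∧
      ∀ (d : ℕ), ∀ χ ∈ H38.SE.Ch K, ∀ c : Cu K, c.F = H38.SE.F0 χ →
        ∃ Z : Finset (AQ K S), (∀ x ∈ Z, x.c = c) ∧ (Z.card : ℝ) ≤ C * H48.KV.selg c.F ∧
        ∀ Y : ℝ, 1 ≤ Y → (H38.SE.Fib pi Q S ds χ d Y).Finite ∧
          |((H38.SE.Fib pi Q S ds χ d Y).ncard : ℝ) - W d c * c.mq S Y| ≤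
            C + C * ∑ x ∈ Z, |x.sq Y| ∧
          ((H38.SE.Fib pi Q S ds χ d Y).ncard : ℝ) ≤
            C * H48.KV.selg c.F * ∑ q ∈ AS K S Y, (3 : ℝ) ^ q.card

end H12.SQ
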